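import Pool.Agent.X31.W4
import Pool.Agent.X31.S7

/-!
# Variance and moments of the sums of the Möbius function over sparse windows `t + s_1, ..., t + s_k`, `k ≤ log ^ T N`,
# with shifts near the values of generalised polynomials

`f(t) = ∑ u_x t ^ x` is an arbitrary finite real combination of real powers of `t` with a positive largest exponent `c`
(for instance `t ^ {3/2}`, `√2 t ^ 3 + t`, `t ^ {1/10}`). The values considered are `b₀ + θ f(n)`, `n ≤ Y`, with arbitrary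
real `b₀` and `θ` for which these values are of size `N` (for instance `θ = N / Y ^ c`).
The number `k ≤ log ^ T N` of the shifts may grow with `N`. For almost all vectors of elements of ARBITRARY dense subsets
of `k` such sets and for ALL vectors of natural numbers `s_i` within `log ^ D N` of the values, the sums
`∑_i a_i μ(t + s_i)` over the window `t + s_1, ..., t + s_k`, with arbitrary coefficients `|a_i| ≤ log ^ T N`, have, up to
errors which save an arbitrary power of the logarithm, the variance `(6 / π²) ∑ a_i ^ 2` (that is `H / ζ(2)` for a window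
of `H = k` integers and `a_i = 1`) and the same moments of every order as the sums `∑_i ± a_i μ²(t + s_i)` with random
signs; also the moments over arbitrary given sets of `t` (weights `w`).

The minimal real additive energy of generalised polynomials is from `Pool.Agent.X31` (`gp_EB`, in this run); the
correlations for families with a sparse large spectrum are from `Pool.Agent.X107.JF` (helper107), the bound for the
exponential sums with `μ` (Davenport) is from the starting files (`Pool.Agent.H373R2.T7.sup_muC`).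
-/

set_option autoImplicit false

namespace Pool.Agent.Results.MP_0575cc_nt.GeneralisedPolynomialWindows

open Finset

/-- the generalised polynomial with the exponents `x ∈ F` and the coefficients `u x` -/
noncomputable def f (F : Finset ℝ) (u : ℝ → ℝ) (t : ℝ) : ℝ := ∑ x ∈ F, u x * t ^ x

/-- `M` is a subset of `{1, ..., Y}` with at least `Y / log ^ D N` elements, `Y ≤ N ^ D`; the number `θ` is at most
`log ^ D N` and at least `N / (Y ^ c log ^ D N)` in absolute value, and `|b₀ + θ f(n)| ≤ N` for all `n ∈ M`. -/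
def Fam (F : Finset ℝ) (u : ℝ → ℝ) (c : ℝ) (D N Y : ℕ) (θ b₀ : ℝ) (M : Finset ℕ) : Prop :=
  (Y : ℝ) ≤ (N : ℝ) ^ D ∧ |θ| ≤ Real.log N ^ D ∧ (N : ℝ) / Real.log N ^ D ≤ |θ| * (Y : ℝ) ^ c ∧
  M ⊆ Icc 1 Y ∧ (Y : ℝ) / Real.log N ^ D ≤ M.card ∧ ∀ n ∈ M, |b₀ + θ * f F u n| ≤ N

/-- the sum `∑ i, a i * μ(t + s i)` over the window `t + s 0, ..., t + s (k - 1)` -/
noncomputable def win {k : ℕ} (a : Fin k → ℝ) (s : Fin k → ℕ) (t : ℕ) : ℝ :=
  ∑ i, a i * (ArithmeticFunction.moebius (t + s i) : ℝ)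

/-- the mean of `(∑ i, ± a i * μ²(t + s i)) ^ j` over all the `2 ^ k` choices of the signs -/
noncomputable def signs {k : ℕ} (a : Fin k → ℝ) (s : Fin k → ℕ) (j t : ℕ) : ℝ :=
  (∑ ε : Fin k → Bool,
    (∑ i, (if ε i then 1 else -1) * (a i * (ArithmeticFunction.moebius (t + s i) : ℝ) ^ 2)) ^ j) / 2 ^ k

lemma dat_of {F : Finset ℝ} {u : ℝ → ℝ} {c : ℝ} {D N Y : ℕ} {θ b₀ : ℝ} {M : Finset ℕ}
    (h : Fam F u c D N Y θ b₀ M) : Pool.Agent.X31.DatG c D N Y θ b₀ (fun n => Pool.Agent.X31.gp F u n) M :=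
  ⟨h.1, h.2.1, h.2.2.1, h.2.2.2.1, h.2.2.2.2.1, h.2.2.2.2.2⟩

/-- Let `F` be a finite set of real numbers with the maximum `c > 0`, `u c ≠ 0`, and
`f(t) = ∑_{x ∈ F} u x * t ^ x`. Let `r`, `B`, `D`, `T`, `U` be natural numbers. For all
sufficiently large `N`, all numbers `k ≤ log ^ T N` of shifts, all `Y i`, all real `θ i`, `b₀ i` and all sets `M i` with
`Fam F u c D N (Y i) (θ i) (b₀ i) (M i)` (`i < k`),
and for all weights `w l`, `l < J ≤ log ^ T N`, with `|w l| ≤ 1`: for all but at most `(∏ #(M i)) / log ^ U N` of the vectors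
`n` with `n i ∈ M i`, ALL vectors `s` of natural numbers with `|s i - (b₀ i + θ i * f F u (n i))| ≤ log ^ D N`, all real
coefficients `|a i| ≤ log ^ T N` and all `x ≤ B N` satisfy:

* the variance: `|∑ t ≤ x, (win a s t) ^ 2 - (6 / π²) (∑ i, a i ^ 2) x| ≤ N / log ^ U N`;
* the moments: `|∑ t ≤ x, w l t * ((win a s t) ^ j - signs a s j t)| ≤ N / log ^ U N` for all `j ≤ r` and all `l`. -/
theorem result (F : Finset ℝ) (u : ℝ → ℝ) (c : ℝ) (hcF : c ∈ F) (hmax : ∀ x ∈ F, x ≤ c)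
    (huc : u c ≠ 0) (hc : 0 < c) (r B D T U : ℕ) :
    ∃ N₀ : ℕ, ∀ N : ℕ, N₀ ≤ N → ∀ k : ℕ, (k : ℝ) ≤ Real.log N ^ T →
      ∀ (Y : Fin k → ℕ) (θ b₀ : Fin k → ℝ) (M : Fin k → Finset ℕ),
        (∀ i, Fam F u c D N (Y i) (θ i) (b₀ i) (M i)) →
      ∀ J : ℕ, (J : ℝ) ≤ Real.log N ^ T → ∀ w : Fin J → ℕ → ℝ, (∀ l t, |w l t| ≤ 1) →
      ∃ E : Finset (Fin k → ℕ), (E.card : ℝ) ≤ (∏ i, ((M i).card : ℝ)) / Real.log N ^ U ∧
        ∀ n : Fin k → ℕ, (∀ i, n i ∈ M i) → n ∉ E →
        ∀ s : Fin k → ℕ, (∀ i, |(s i : ℝ) - (b₀ i + θ i * f F u (n i))| ≤ Real.log N ^ D) →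
        ∀ a : Fin k → ℝ, (∀ i, |a i| ≤ Real.log N ^ T) → ∀ x : ℕ, x ≤ B * N →
          |(∑ t ∈ Icc 1 x, win a s t ^ 2) - 6 / Real.pi ^ 2 * (∑ i, a i ^ 2) * x| ≤ N / Real.log N ^ U ∧
          ∀ j ≤ r, ∀ l, |∑ t ∈ Icc 1 x, w l t * (win a s t ^ j - signs a s j t)| ≤ N / Real.log N ^ U := by
  obtain ⟨N₀, h0⟩ := (Pool.Agent.X31.Sch_gp F u c hcF hmax huc hc).mv 0 r B D T U
  refine ⟨N₀, fun N hN k hk Y θ b₀ M hfam J hJ w hw => ?_⟩
  exact h0 N hN k hk M (fun i n => (b₀ i + θ i * f F u n)) (fun i => ⟨Y i, θ i, b₀ i, dat_of (hfam i), fun _ => rfl⟩) J hJ w hw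

end Pool.Agent.Results.MP_0575cc_nt.GeneralisedPolynomialWindows
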