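import Pool.Agent.X113.GG7

/-!
# The logarithmically averaged Good–Churchhouse asymptotics is equivalent to Gonek's conjecture

For `δ > 0` let `L(δ, X) = (1 / log X) ∫_1^X (∑_{x < n ≤ (1+δ)x} μ(n))² / (δx) dx/x`, the logarithmic average of the
square of the sum of the Möbius function over the window `(x, (1+δ)x]` divided by the length of the window.  The
Good–Churchhouse constant is `1/ζ(2) = 6/π²`.

* For every fixed `δ > 0` the limit of `L(δ, X)` as `X → ∞` exists in `(0, ∞]`, unconditionally.  It is finite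
  exactly when the Riemann Hypothesis holds, all zeros are simple and `∑ 1/|ρζ'(ρ)|² < ∞`, and then it is
  `(1/δ) ∑_ρ |(1+δ)^ρ - 1|² / |ρ ζ'(ρ)|²`.
* `L(δ, X) → 6/π²` in the iterated sense (first `X → ∞`, then `δ → 0+`) if and only if the Riemann Hypothesis
  holds, all zeros are simple and `∑_{0 < γ ≤ T} 1/|ζ'(ρ)|² ~ (3/π³) T`, which is Gonek's conjecture.  It is even
  enough that for every small `δ` there are arbitrarily large `X`, as sparse as one likes, for which `L(δ, X)` is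
  close to `6/π²`.  The same holds with any constant `κ` in place of `6/π²` and `κ/(2π)` in place of `3/π³`.
-/

set_option autoImplicit false

open Filter Topology MeasureTheory

namespace Pool.Agent.Results.MP_0575cc_nt.GonekEquivalence

/-- the sum of the Möbius function over the integers `n` with `x < n ≤ (1+δ)x` -/
noncomputable def windowSum (δ x : ℝ) : ℝ :=
  ∑ n ∈ Finset.Ioc ⌊x⌋₊ ⌊(1 + δ) * x⌋₊, ((ArithmeticFunction.moebius n : ℤ) : ℝ)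

/-- `L(δ, X) = (1 / log X) ∫_1^X (∑_{x < n ≤ (1+δ)x} μ(n))² / (δx) dx/x` -/
noncomputable def L (δ X : ℝ) : ℝ :=
  (∫ x in (1:ℝ)..X, windowSum δ x ^ 2 / (δ * x) / x) / Real.log X

/-- the nontrivial zeros of the Riemann zeta function -/
def NT : Set ℂ := {s : ℂ | riemannZeta s = 0 ∧ 0 < s.re ∧ s.re < 1}

/-- the Riemann Hypothesis, and all nontrivial zeros are simple -/
def RHSimple : Prop := ∀ ρ ∈ NT, ρ.re = 1 / 2 ∧ deriv riemannZeta ρ ≠ 0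

/-- the nontrivial zeros with ordinate in `(0, T]` -/
def zerosUpTo (T : ℝ) : Set ℂ := {ρ : ℂ | ρ ∈ NT ∧ 0 < ρ.im ∧ ρ.im ≤ T}

/-- `J_{-1}(T) = ∑_{0 < γ ≤ T} 1/|ζ'(ρ)|²` -/
noncomputable def J (T : ℝ) : ℝ := ∑' ρ : zerosUpTo T, 1 / ‖deriv riemannZeta ρ‖ ^ 2

theorem result :
    (∀ δ : ℝ, 0 < δ →
      ((RHSimple ∧ Summable fun ρ : NT => 1 / ‖(ρ : ℂ) * deriv riemannZeta ρ‖ ^ 2) →
        0 < ∑' ρ : NT, ‖((1 + δ : ℝ) : ℂ) ^ (ρ : ℂ) - 1‖ ^ 2 / ‖(ρ : ℂ) * deriv riemannZeta ρ‖ ^ 2 ∧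
        Tendsto (L δ) atTop (𝓝 ((∑' ρ : NT, ‖((1 + δ : ℝ) : ℂ) ^ (ρ : ℂ) - 1‖ ^ 2 /
          ‖(ρ : ℂ) * deriv riemannZeta ρ‖ ^ 2) / δ))) ∧
      (¬ (RHSimple ∧ Summable fun ρ : NT => 1 / ‖(ρ : ℂ) * deriv riemannZeta ρ‖ ^ 2) →
        Tendsto (L δ) atTop atTop)) ∧
    (∀ T : ℝ, (zerosUpTo T).Finite) ∧
    (∀ κ : ℝ, [
      ∀ ε : ℝ, 0 < ε → ∀ᶠ δ : ℝ in 𝓝[>] 0, ∀ᶠ X : ℝ in atTop, |L δ X - κ| ≤ ε,
      ∀ ε : ℝ, 0 < ε → ∀ᶠ δ : ℝ in 𝓝[>] 0, ∃ᶠ X : ℝ in atTop, |L δ X - κ| ≤ ε,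
      RHSimple ∧ Tendsto (fun T => J T / T) atTop (𝓝 (κ / (2 * Real.pi)))].TFAE) ∧
    [ ∀ ε : ℝ, 0 < ε → ∀ᶠ δ : ℝ in 𝓝[>] 0, ∀ᶠ X : ℝ in atTop, |L δ X - 6 / Real.pi ^ 2| ≤ ε,
      ∀ ε : ℝ, 0 < ε → ∀ᶠ δ : ℝ in 𝓝[>] 0, ∃ᶠ X : ℝ in atTop, |L δ X - 6 / Real.pi ^ 2| ≤ ε,
      RHSimple ∧ Tendsto (fun T => J T / T) atTop (𝓝 (3 / Real.pi ^ 3))].TFAE := by
  have hJ : ∀ T, J T = X113.GG.Jm T := fun T => (X113.GG.Jm_form T).symm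
  have hmain : ∀ κ : ℝ, [
      ∀ ε : ℝ, 0 < ε → ∀ᶠ δ : ℝ in 𝓝[>] 0, ∀ᶠ X : ℝ in atTop, |L δ X - κ| ≤ ε,
      ∀ ε : ℝ, 0 < ε → ∀ᶠ δ : ℝ in 𝓝[>] 0, ∃ᶠ X : ℝ in atTop, |L δ X - κ| ≤ ε,
      RHSimple ∧ Tendsto (fun T => J T / T) atTop (𝓝 (κ / (2 * Real.pi)))].TFAE := by
    intro κ
    have h := X113.GG.gonek_tfae κ
    simp only [hJ]
    exact h
  refine ⟨fun δ hδ => ⟨fun hZ => ?_, fun hZ => X113.GG.LW_infinite hZ hδ⟩, fun T => X113.GG.J_fin T,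
    hmain, ?_⟩
  · have h1 := X113.GG.LW_limit hZ hδ
    have h2 := X113.GG.val_pos hZ (Real.log_pos (by linarith : 1 < 1 + δ))
    have h3 := X113.GG.dw_form hδ
    rw [h3] at h1
    refine ⟨?_, h1⟩
    have h4 : 0 < (∑' ρ : W120.WM.NT, ‖((1 + δ : ℝ) : ℂ) ^ (ρ : ℂ) - 1‖ ^ 2 /
        ‖(ρ : ℂ) * deriv riemannZeta ρ‖ ^ 2) / δ := by
      rw [← h3]
      exact div_pos h2 hδ
    exact (div_pos_iff_of_pos_right hδ).1 h4
  · have h := hmain (6 / Real.pi ^ 2)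
    have e : 6 / Real.pi ^ 2 / (2 * Real.pi) = 3 / Real.pi ^ 3 := by
      have := Real.pi_pos.ne'
      field_simp
      norm_num
    rwa [e] at h

end Pool.Agent.Results.MP_0575cc_nt.GonekEquivalence
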