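import Pool.Agent.X113.LV5

/-!
# The variance of the Moebius function in short intervals is of order at least `H` on average

`∫ X in A..B, f X` is the ordinary integral of `f` over `[A, B]`; `ArithmeticFunction.moebius` is the Moebius
function; `Real.log` the natural logarithm.
-/

set_option autoImplicit false

open MeasureTheory

namespace Pool.Agent.Results.MP_0575cc_nt.LogAverageLowerBound

/-- The sum of `μ(n)` over the integers `n ≥ 1` with `|n - x| < H / 2` (for `x, H ≥ 0` all of them are at most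
`⌈x + H⌉`; `μ(0) = 0`). -/
noncomputable def M (x H : ℝ) : ℝ :=
  ∑ n ∈ (Finset.range (⌈x + H⌉₊ + 1)).filter (fun n : ℕ => |(n : ℝ) - x| < H / 2),
    ((ArithmeticFunction.moebius n : ℤ) : ℝ)

/-- The variance `V(X;H)`: the mean of `M(x;H) ^ 2` over `X ≤ x ≤ 2 X`. -/
noncomputable def V (X H : ℝ) : ℝ := (1 / X) * ∫ x in X..2 * X, M x H ^ 2

/-- For all real `a > 1` and `b > a + 1` there are `c > 0` and `T₀` such that for every `T ≥ T₀` the integral of
`V(X;H) / H` with respect to `(dX / X) (dH / H)` over the `X` and `H` with `T ^ a ≤ X ≤ T ^ b` and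
`X / (16 T) ≤ H ≤ 4 X / T` is at least `c log T`. (The measure of this region is `(b - a) log 64 log T`.) -/
theorem result (a b : ℝ) (ha : 1 < a) (hab : a + 1 < b) : ∃ c T₀ : ℝ, 0 < c ∧ 1 ≤ T₀ ∧
    ∀ T : ℝ, T₀ ≤ T → c * Real.log T ≤ ∫ X in (T ^ a)..(T ^ b),
      (∫ H in (X / (16 * T))..(4 * X / T), V X H / H ^ 2) / X :=
  Pool.Agent.X113.LV.mu_final a b ha hab

end Pool.Agent.Results.MP_0575cc_nt.LogAverageLowerBound
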