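import Pool.Agent.X20.Tr.Short

/-!
# Moebius sums over the short intervals which start at `⌊α n ^ c⌋`

A transfer theorem for the mean square, and a theorem of Matomaki-Radziwill-Tao type, uniform in the frequency, for
the intervals of any length `H ≤ N ^ κ` which start at the points `⌊α n ^ c⌋`, `n ≤ N`.
From Mathlib: `ArithmeticFunction.moebius`: the Moebius function; `dimH E`: the Hausdorff dimension; `⌊x⌋₊`: the
integer part; `Finset.Icc 1 N` and `Finset.Ioc 0 N`: the integers from `1` to `N`.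
-/

set_option autoImplicit false

namespace Pool.Agent.Results.MP_0575cc_nt.ShortSumsAlongDilatedPowers

open Finset
open Pool.Agent.X20.Tr
open Pool.Agent.Y854.PS (ms xs)

/-- The sum of `μ(m + h) e(h θ)` over `1 ≤ h ≤ H`, where `e(x) = exp(2 π i x)`; for `θ = 0` it is the sum of `μ` over
the interval `(m, m + H]`. -/
noncomputable def shortSum (θ : ℝ) (H m : ℕ) : ℂ :=
  ∑ h ∈ Icc 1 H, (ArithmeticFunction.moebius (m + h) : ℂ) * Complex.exp (2 * Real.pi * Complex.I * (h * θ : ℝ))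

/-- For every real `c > 1` there are `κ > 0` and a set `E` of real numbers of Hausdorff dimension at most `1 - κ`
such that for every real `α > 0` outside `E`:

* for all large `N`, all lengths `H ≤ N ^ κ` and all real `θ` the mean square of the sums `shortSum θ H` over the
  points `⌊α n ^ c⌋`, `n ≤ N`, is, up to `N ^ (1 - κ)`, equal to their mean square over all the integers `m ≤ α N ^ c`
  with the weights `(1 / c) α ^ (-1 / c) m ^ (1 / c - 1)` (the density of the sequence at `m`);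
* for every `ε > 0` there are `H₀` and `N₀` such that for all `N ≥ N₀`, all `H₀ ≤ H ≤ N ^ κ` and all real `θ` the sum of
  `|shortSum θ H ⌊α n ^ c⌋| ^ 2` over `n ≤ N` is at most `ε H ^ 2 N`. -/
theorem result (c : ℝ) (hc : 1 < c) : ∃ κ : ℝ, 0 < κ ∧ κ < 1 ∧ ∃ E : Set ℝ, dimH E ≤ ENNReal.ofReal (1 - κ) ∧
    ∀ α : ℝ, 0 < α → α ∉ E →
      (∃ N₀ : ℕ, ∀ N : ℕ, N₀ ≤ N → ∀ H : ℕ, (H : ℝ) ≤ (N : ℝ) ^ κ → ∀ θ : ℝ,
        |∑ n ∈ Icc 1 N, ‖shortSum θ H ⌊α * (n : ℝ) ^ c⌋₊‖ ^ 2 -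
          ∑ m ∈ Ioc 0 ⌊α * (N : ℝ) ^ c⌋₊, ‖shortSum θ H m‖ ^ 2 *
            (1 / c * α ^ (-(1 / c)) * (m : ℝ) ^ (1 / c - 1))| ≤ (N : ℝ) ^ (1 - κ)) ∧
      (∀ ε : ℝ, 0 < ε → ∃ H₀ N₀ : ℕ, ∀ N : ℕ, N₀ ≤ N → ∀ H : ℕ, H₀ ≤ H → (H : ℝ) ≤ (N : ℝ) ^ κ → ∀ θ : ℝ,
        ∑ n ∈ Icc 1 N, ‖shortSum θ H ⌊α * (n : ℝ) ^ c⌋₊‖ ^ 2 ≤ ε * (H : ℝ) ^ 2 * N) := by
  have hμ : ∀ n : ℕ, ArithmeticFunction.moebius n = 1 ∨ ArithmeticFunction.moebius n = 0 ∨
      ArithmeticFunction.moebius n = -1 := by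
    intro n
    by_cases h : ArithmeticFunction.moebius n = 0
    · exact Or.inr (Or.inl h)
    · rcases ArithmeticFunction.moebius_ne_zero_iff_eq_or.1 h with h | h
      · exact Or.inl h
      · exact Or.inr (Or.inr h)
  obtain ⟨κ, h0, h1, E, hE, h⟩ := Sho.main (fun n => ArithmeticFunction.moebius n) hμ Pool.Agent.TH823.MRS.mu_E c hc
  have e : ∀ (θ : ℝ) (H m : ℕ), Sho.S (fun n => ArithmeticFunction.moebius n) θ H m = shortSum θ H m :=
    fun _ _ _ => rfl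
  refine ⟨κ, h0, h1, E, hE, fun α hα hαE => ?_⟩
  obtain ⟨h2, h3⟩ := h α hα hαE
  simp only [e] at h2 h3
  exact ⟨h2, h3⟩

end Pool.Agent.Results.MP_0575cc_nt.ShortSumsAlongDilatedPowers
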